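import Mathlib

/-! Module E4 (MP_7dd379_ag): the iteration `f = G z + x₂^j κ`. -/

namespace H66E3
open Polynomial IsLocalRing

variable {A : Type*} [CommRing A]

/-- Invariant of the iteration. -/
structure St (x1 x2 : A) (f : A[X]) (Q0 : A[X]) (t0 : A) (j : ℕ) (tau kap : A) (Q h2 : A[X]) :
    Prop where
  eq : f = (X - C tau) * (C x1 * Q + C x2 * h2) + C (x2 ^ (j + 1) * kap)
  monic : Q.Monic
  deg : Q.natDegree = 2
  degh : h2.natDegree ≤ 1
  tau_sub : x2 ∣ tau - t0
  unit : IsUnit (Q.eval tau)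
  Qsub : ∃ u : A[X], u.natDegree ≤ 1 ∧ Q = Q0 + C x2 * u

lemma div_root (P : A[X]) (t : A) :
    P = (X - C t) * (P /ₘ (X - C t)) + C (P.eval t) := by
  have h := modByMonic_add_div P (X - C t)
  rw [modByMonic_X_sub_C_eq_C_eval] at h
  rw [add_comm]; exact h.symm

lemma natDegree_div_root [Nontrivial A] (P : A[X]) (t : A) :
    (P /ₘ (X - C t)).natDegree = P.natDegree - 1 := by
  rw [natDegree_divByMonic P (monic_X_sub_C t), natDegree_X_sub_C]

/-- One step of the iteration. -/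
lemma St.step [IsLocalRing A] {x1 x2 : A} (hx2 : x2 ∈ maximalIdeal A) {f Q0 : A[X]} {t0 : A}
    {j : ℕ} {tau kap : A} {Q h2 : A[X]} (S : St x1 x2 f Q0 t0 j tau kap Q h2)
    (hk : kap ∈ Ideal.span ({x1, x2} : Set A)) :
    ∃ (tau' kap' : A) (Q' h2' : A[X]), St x1 x2 f Q0 t0 (j + 1) tau' kap' Q' h2' ∧
      x2 ^ (j + 1) ∣ tau' - tau := by
  obtain ⟨mu, k1, hk1⟩ := Ideal.mem_span_pair.1 hk
  obtain ⟨u, hu⟩ := S.unit
  set mu' : A := mu * ↑u⁻¹ with hmu'
  have hmuQ : mu = mu' * Q.eval tau := by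
    rw [hmu', ← hu, mul_assoc, Units.inv_mul, mul_one]
  set mu'' : A[X] := (C mu - C mu' * Q) /ₘ (X - C tau) with hmu''
  have e1 : C mu - C mu' * Q = (X - C tau) * mu'' := by
    have := div_root (C mu - C mu' * Q) tau
    rw [eval_sub, eval_mul, eval_C, eval_C, ← hmuQ, sub_self, C_0, add_zero] at this
    exact this
  have d1 : mu''.natDegree ≤ 1 := by
    rw [hmu'', natDegree_div_root]
    have : (C mu - C mu' * Q).natDegree ≤ 2 := by
      refine (natDegree_sub_le _ _).trans (max_le (by simp) ?_)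
      refine (natDegree_C_mul_le _ _).trans ?_
      rw [S.deg]
    omega
  set tau' : A := tau - x2 ^ (j + 1) * mu' with htau'
  set P : A[X] := C k1 - C mu' * h2 - C (x1 * x2 ^ j * mu') * mu'' with hP
  set w : A[X] := P /ₘ (X - C tau') with hw
  have e2 : P = (X - C tau') * w + C (P.eval tau') := div_root P tau'
  have dP : P.natDegree ≤ 1 := by
    rw [hP]
    refine (natDegree_sub_le _ _).trans (max_le ?_ ?_)
    · refine (natDegree_sub_le _ _).trans (max_le (by simp) ?_)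
      exact (natDegree_C_mul_le _ _).trans S.degh
    · exact (natDegree_C_mul_le _ _).trans d1
  have dw : w.natDegree ≤ 1 := by
    rw [hw, natDegree_div_root]; omega
  have dQ : (C (x2 ^ (j + 1)) * mu'').degree < Q.degree := by
    rw [degree_eq_natDegree S.monic.ne_zero, S.deg]
    refine degree_le_natDegree.trans_lt ?_
    have : (C (x2 ^ (j + 1)) * mu'').natDegree ≤ 1 := (natDegree_C_mul_le _ _).trans d1
    exact_mod_cast Nat.lt_succ_of_le this
  refine ⟨tau', P.eval tau', Q + C (x2 ^ (j + 1)) * mu'', h2 + C (x2 ^ (j + 1)) * w,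
    ⟨?_, ?_, ?_, ?_, ?_, ?_, ?_⟩, ?_⟩
  · -- equation
    have hkC : C kap = C mu * C x1 + C k1 * C x2 := by
      rw [← hk1]; simp
    have e2' : (X - C tau') * w = P - C (P.eval tau') := by
      rw [eq_sub_iff_add_eq]; exact e2.symm
    have e1' : C mu = C mu' * Q + (X - C tau) * mu'' := by rw [← e1]; ring
    have hC' : X - C tau' = X - C tau + C x2 ^ (j + 1) * C mu' := by
      rw [htau']; simp; ring
    have key : (X - C tau') * (C x1 * (Q + C (x2 ^ (j + 1)) * mu'') +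
        C x2 * (h2 + C (x2 ^ (j + 1)) * w)) =
        (X - C tau') * (C x1 * (Q + C (x2 ^ (j + 1)) * mu'') + C x2 * h2) +
        C x2 * C (x2 ^ (j + 1)) * ((X - C tau') * w) := by ring
    rw [key, e2', hC', S.eq]
    simp only [C_mul, C_pow, hkC, hP]
    rw [e1']
    ring
  · exact S.monic.add_of_left dQ
  · rw [natDegree_add_eq_left_of_degree_lt dQ, S.deg]
  · refine (natDegree_add_le _ _).trans (max_le S.degh ?_)
    exact (natDegree_C_mul_le _ _).trans dw
  · obtain ⟨c, hc⟩ := S.tau_sub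
    refine ⟨c - x2 ^ j * mu', ?_⟩
    rw [htau', mul_sub, ← hc]; ring
  · -- unit
    have hx2m : x2 ^ (j + 1) * mu' ∈ maximalIdeal A := by
      rw [pow_succ, mul_comm (x2 ^ j), mul_assoc]; exact Ideal.mul_mem_right _ _ hx2
    have h1 : Q.eval tau' - Q.eval tau ∈ maximalIdeal A := by
      obtain ⟨c, hc⟩ := Polynomial.sub_dvd_eval_sub tau' tau Q
      rw [hc, htau']
      refine Ideal.mul_mem_right _ _ ?_
      rw [sub_sub_cancel_left]; exact neg_mem hx2m
    have h2 : (Q + C (x2 ^ (j + 1)) * mu'').eval tau' - Q.eval tau ∈ maximalIdeal A := by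
      rw [eval_add, eval_mul, eval_C, add_sub_right_comm]
      refine add_mem h1 (Ideal.mul_mem_right _ _ ?_)
      rw [pow_succ]; exact Ideal.mul_mem_left _ _ hx2
    by_contra hn
    have h3 : (Q + C (x2 ^ (j + 1)) * mu'').eval tau' ∈ maximalIdeal A := hn
    have h4 : Q.eval tau ∈ maximalIdeal A := by
      have := sub_mem h3 h2; rwa [sub_sub_cancel] at this
    exact (IsLocalRing.mem_maximalIdeal _).1 h4 S.unit
  · obtain ⟨v, hv, hQv⟩ := S.Qsub
    refine ⟨v + C (x2 ^ j) * mu'', ?_, ?_⟩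
    · refine (natDegree_add_le _ _).trans (max_le hv ?_)
      exact (natDegree_C_mul_le _ _).trans d1
    · rw [hQv, pow_succ, C_mul]; ring
  · exact ⟨-mu', by rw [htau']; ring⟩

/-- Value at `tau`. -/
lemma St.eval_tau {x1 x2 : A} {f Q0 : A[X]} {t0 : A}
    {j : ℕ} {tau kap : A} {Q h2 : A[X]} (S : St x1 x2 f Q0 t0 j tau kap Q h2) :
    f.eval tau = x2 ^ (j + 1) * kap := by
  rw [S.eq]; simp

/-- Start of the iteration. -/
lemma St.start [Nontrivial A] {x1 x2 : A} {g h : A[X]} (hgm : g.Monic)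
    (hg : g.natDegree = 3) (hh : h.natDegree ≤ 2) {t0 : A} (h0 : g.eval t0 = 0)
    (h1 : IsUnit (g.derivative.eval t0)) :
    St x1 x2 (C x1 * g + C x2 * h) (g /ₘ (X - C t0)) t0 0 t0 (h.eval t0)
      (g /ₘ (X - C t0)) (h /ₘ (X - C t0)) := by
  have eg : g = (X - C t0) * (g /ₘ (X - C t0)) := by
    have := div_root g t0
    rwa [h0, C_0, add_zero] at this
  have eh : h = (X - C t0) * (h /ₘ (X - C t0)) + C (h.eval t0) := div_root h t0
  refine ⟨?_, ?_, ?_, ?_, ?_, ?_, ?_⟩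
  · conv_lhs => rw [eg, eh]
    simp only [zero_add, pow_one, C_mul]
    ring
  · have hm : ((X - C t0) * (g /ₘ (X - C t0))).Monic := by rw [← eg]; exact hgm
    exact (monic_X_sub_C t0).of_mul_monic_left hm
  · rw [natDegree_div_root, hg]
  · rw [natDegree_div_root]; omega
  · simp
  · have hd : g.derivative.eval t0 = (g /ₘ (X - C t0)).eval t0 := by
      conv_lhs => rw [eg]
      simp [derivative_mul]
    rwa [hd] at h1
  · exact ⟨0, by simp, by simp⟩

/-- The iteration terminates if `f` has no root. -/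
theorem St.exists_notMem [IsLocalRing A] [IsAdicComplete (maximalIdeal A) A] {x1 x2 : A}
    (hx2 : x2 ∈ maximalIdeal A) {f Q0 : A[X]} {t0 : A}
    {j : ℕ} {tau kap : A} {Q h2 : A[X]} (S : St x1 x2 f Q0 t0 j tau kap Q h2)
    (hroot : ∀ t : A, f.eval t ≠ 0) :
    ∃ (i : ℕ) (tau' kap' : A) (Q' h2' : A[X]), j ≤ i ∧ St x1 x2 f Q0 t0 i tau' kap' Q' h2' ∧
      kap' ∉ Ideal.span ({x1, x2} : Set A) := by
  classical
  by_contra hcon
  have hcon' : ∀ (i : ℕ) (tau' kap' : A) (Q' h2' : A[X]), j ≤ i →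
      St x1 x2 f Q0 t0 i tau' kap' Q' h2' → kap' ∈ Ideal.span ({x1, x2} : Set A) := by
    intro i tau' kap' Q' h2' hi S'
    by_contra h
    exact hcon ⟨i, tau', kap', Q', h2', hi, S', h⟩
  -- the sequence
  let D := A × A × A[X] × A[X]
  let P : ℕ → D → Prop := fun n d => St x1 x2 f Q0 t0 (j + n) d.1 d.2.1 d.2.2.1 d.2.2.2
  have hstep : ∀ n (d : D), P n d → ∃ d' : D, P (n + 1) d' ∧ x2 ^ (j + n + 1) ∣ d'.1 - d.1 := by
    intro n d hd
    obtain ⟨t', k', Q', h', hS, hdv⟩ := St.step hx2 hd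
      (hcon' (j + n) _ _ _ _ (Nat.le_add_right _ _) hd)
    exact ⟨(t', k', Q', h'), hS, hdv⟩
  let s : (n : ℕ) → {d : D // P n d} := fun n => Nat.rec
    (⟨(tau, kap, Q, h2), S⟩ : {d : D // P 0 d})
    (fun n d => ⟨(hstep n d.1 d.2).choose, (hstep n d.1 d.2).choose_spec.1⟩) n
  have hs : ∀ n, x2 ^ (j + n + 1) ∣ (s (n + 1)).1.1 - (s n).1.1 := fun n =>
    (hstep n (s n).1 (s n).2).choose_spec.2
  have hmem : ∀ n, x2 ^ n ∈ (maximalIdeal A) ^ n := fun n => Ideal.pow_mem_pow hx2 n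
  have hs' : ∀ n, (s (n + 1)).1.1 - (s n).1.1 ∈ (maximalIdeal A) ^ n := by
    intro n
    obtain ⟨c, hc⟩ := hs n
    rw [hc]
    exact Ideal.mul_mem_right _ _ (Ideal.pow_le_pow_right (by omega) (hmem (j + n + 1)))
  have hcauchy : ∀ {m n : ℕ}, m ≤ n → (s n).1.1 - (s m).1.1 ∈ (maximalIdeal A) ^ m := by
    intro m n hmn
    induction n, hmn using Nat.le_induction with
    | base => simp
    | succ n hmn ih =>
      have := add_mem (Ideal.pow_le_pow_right hmn (hs' n)) ih
      rwa [sub_add_sub_cancel] at this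
  obtain ⟨L, hL⟩ := IsPrecomplete.prec' (I := maximalIdeal A) (M := A) (fun n => (s n).1.1) (by
    intro m n hmn
    rw [SModEq.comm, SModEq.sub_mem]
    simpa using hcauchy hmn)
  apply hroot L
  refine IsHausdorff.haus' (I := maximalIdeal A) (M := A) _ fun n => ?_
  have hLn := hL n
  rw [SModEq.sub_mem] at hLn
  rw [SModEq.sub_mem, sub_zero]
  have hLn' : (s n).1.1 - L ∈ (maximalIdeal A) ^ n := by simpa using hLn
  have h1 : f.eval (s n).1.1 - f.eval L ∈ (maximalIdeal A) ^ n := by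
    obtain ⟨c, hc⟩ := Polynomial.sub_dvd_eval_sub (s n).1.1 L f
    rw [hc]; exact Ideal.mul_mem_right _ _ hLn'
  have h2 : f.eval (s n).1.1 ∈ (maximalIdeal A) ^ n := by
    rw [St.eval_tau (s n).2]
    exact Ideal.mul_mem_right _ _ (Ideal.pow_le_pow_right (by omega) (hmem (j + n + 1)))
  have h3 := sub_mem h2 h1
  rw [sub_sub_cancel] at h3
  simpa using h3

/-- **E4**. -/
theorem exists_iter [IsLocalRing A] [IsAdicComplete (maximalIdeal A) A] {x1 x2 : A}
    (hx2 : x2 ∈ maximalIdeal A) {g h : A[X]} (hgm : g.Monic)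
    (hg : g.natDegree = 3) (hh : h.natDegree ≤ 2) {t0 : A} (h0 : g.eval t0 ∈ maximalIdeal A)
    (h1 : g.derivative.eval t0 ∉ maximalIdeal A)
    (hroot : ∀ t : A, (C x1 * g + C x2 * h).eval t ≠ 0) :
    ∃ (j : ℕ) (tau kap : A) (Q h2 : A[X]),
      C x1 * g + C x2 * h = (X - C tau) * (C x1 * Q + C x2 * h2) + C (x2 ^ (j + 1) * kap) ∧
      Q.Monic ∧ Q.natDegree = 2 ∧ h2.natDegree ≤ 1 ∧ tau - t0 ∈ maximalIdeal A ∧
      IsUnit (Q.eval tau) ∧ kap ∉ Ideal.span ({x1, x2} : Set A) ∧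
      (g.map (residue A) = (X - C (residue A tau)) * Q.map (residue A)) := by
  have hu1 : ∀ x : A, x ∉ maximalIdeal A → IsUnit x := fun x hx =>
    IsLocalRing.notMem_maximalIdeal.1 hx
  obtain ⟨t1, ht1, ht1'⟩ := HenselianRing.is_henselian (I := maximalIdeal A) g hgm t0 h0
    ((hu1 _ h1).map _)
  have hd1 : IsUnit (g.derivative.eval t1) := by
    apply hu1
    intro hmem
    apply h1
    obtain ⟨c, hc⟩ := Polynomial.sub_dvd_eval_sub t1 t0 g.derivative
    have : g.derivative.eval t1 - g.derivative.eval t0 ∈ maximalIdeal A := by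
      rw [hc]; exact Ideal.mul_mem_right _ _ ht1'
    have h3 := sub_mem hmem this
    rwa [sub_sub_cancel] at h3
  have S0 := St.start (x1 := x1) (x2 := x2) hgm hg hh (t0 := t1) ht1 hd1
  obtain ⟨j, tau, kap, Q, h2, -, S, hk⟩ := S0.exists_notMem hx2 hroot
  have htau : tau - t1 ∈ maximalIdeal A := by
    obtain ⟨c, hc⟩ := S.tau_sub
    rw [hc]; exact Ideal.mul_mem_right _ _ hx2
  refine ⟨j, tau, kap, Q, h2, S.eq, S.monic, S.deg, S.degh, ?_, S.unit, hk, ?_⟩
  · have := add_mem htau ht1'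
    rwa [sub_add_sub_cancel] at this
  · obtain ⟨u, -, hu⟩ := S.Qsub
    have hx2' : residue A x2 = 0 := by rwa [residue_eq_zero_iff]
    have ht : residue A tau = residue A t1 := by
      rw [← sub_eq_zero, ← map_sub, residue_eq_zero_iff]; exact htau
    have eg : g = (X - C t1) * (g /ₘ (X - C t1)) := by
      have := div_root g t1
      rwa [show g.eval t1 = 0 from ht1, C_0, add_zero] at this
    conv_lhs => rw [eg]
    rw [hu]
    simp [Polynomial.map_add, Polynomial.map_mul, hx2', ht]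

end H66E3
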